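import Pool.Agent.H503R3.FR.Stmts

set_option autoImplicit false

open MvPolynomial

namespace Pool.Agent.H66R3.FR

open H503R3.FR

theorem wr {A : Type} [CommRing A] (rs : List A)
    (h : ∀ (i : ℕ) (hi : i < rs.length), ∀ a, rs[i] * a ∈ Ideal.ofList (rs.take i) →
      a ∈ Ideal.ofList (rs.take i)) : RingTheory.Sequence.IsWeaklyRegular A rs := by
  refine ⟨fun i hi => ?_⟩
  rw [isSMulRegular_quotient_iff_mem_of_smul_mem]
  intro x hx
  rw [smul_eq_mul, Ideal.mul_top] at hx ⊢
  exact h i hi x hx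

theorem wr2 {A : Type} [CommRing A] (x y : A)
    (h1 : ∀ a, x * a = 0 → a = 0) (h2 : ∀ a, y * a ∈ Ideal.span {x} → a ∈ Ideal.span {x}) :
    RingTheory.Sequence.IsWeaklyRegular A [x, y] := by
  apply wr
  intro i hi a ha
  match i, hi with
  | 0, _ =>
    simp only [List.take_zero, Ideal.ofList_nil, Ideal.mem_bot, List.getElem_cons_zero] at ha ⊢
    exact h1 a ha
  | 1, _ =>
    simp only [List.take_succ_cons, List.take_zero, Ideal.ofList_singleton,
      List.getElem_cons_succ, List.getElem_cons_zero] at ha ⊢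
    exact h2 a ha

theorem wr3 {A : Type} [CommRing A] (x y z : A)
    (h1 : ∀ a, x * a = 0 → a = 0) (h2 : ∀ a, y * a ∈ Ideal.span {x} → a ∈ Ideal.span {x})
    (h3 : ∀ a, z * a ∈ Ideal.span {x, y} → a ∈ Ideal.span {x, y}) :
    RingTheory.Sequence.IsWeaklyRegular A [x, y, z] := by
  apply wr
  intro i hi a ha
  match i, hi with
  | 0, _ =>
    simp only [List.take_zero, Ideal.ofList_nil, Ideal.mem_bot, List.getElem_cons_zero] at ha ⊢
    exact h1 a ha
  | 1, _ =>
    simp only [List.take_succ_cons, List.take_zero, Ideal.ofList_singleton,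
      List.getElem_cons_succ, List.getElem_cons_zero] at ha ⊢
    exact h2 a ha
  | 2, _ =>
    have e : Ideal.ofList [x, y] = Ideal.span {x, y} := by
      rw [Ideal.ofList_cons, Ideal.ofList_singleton, Ideal.span_insert]
    simp only [List.take_succ_cons, List.take_zero, e,
      List.getElem_cons_succ, List.getElem_cons_zero] at ha ⊢
    exact h3 a ha

variable {k : Type} [Field k]

/-- only `X 0` occurs -/
def OnlyX0 (g : D k) : Prop := ∀ m ∈ g.support, m 1 = 0 ∧ m 2 = 0

def G1 (a : D k) : Prop := ∀ m ∈ a.support, 2 ≤ m 1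
def G2 (a : D k) : Prop := ∀ m ∈ a.support, 2 ≤ m 1 ∨ 2 ≤ m 2
def IsS (S : ℕ → Prop) (a : D k) : Prop := ∀ m ∈ a.support, S (m 1 + m 2)

theorem supp_add {T : (Fin 3 →₀ ℕ) → Prop} {a b : D k} (ha : ∀ m ∈ a.support, T m)
    (hb : ∀ m ∈ b.support, T m) : ∀ m ∈ (a + b).support, T m := by
  classical
  intro m hm
  rcases Finset.mem_union.1 (MvPolynomial.support_add hm) with h | h
  · exact ha m h
  · exact hb m h

theorem supp_monomial {T : (Fin 3 →₀ ℕ) → Prop} {s : Fin 3 →₀ ℕ} (hs : T s) (c : k) :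
    ∀ m ∈ (monomial s c : D k).support, T m := by
  intro m hm
  have h := MvPolynomial.support_monomial_subset hm
  rw [Finset.mem_singleton] at h
  rw [h]
  exact hs

theorem supp_zero {T : (Fin 3 →₀ ℕ) → Prop} : ∀ m ∈ (0 : D k).support, T m := by
  intro m hm
  simp at hm

theorem coeff_sq (i : Fin 3) (a : D k) (m : Fin 3 →₀ ℕ) :
    coeff m (X i ^ 2 * a) = if 2 ≤ m i then coeff (m - Finsupp.single i 2) a else 0 := by
  rw [X_pow_eq_monomial, mul_comm, coeff_mul_monomial', mul_one]
  congr 1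
  rw [Finsupp.single_le_iff]

theorem coeff_sq' (i : Fin 3) (a : D k) (m : Fin 3 →₀ ℕ) :
    coeff (m + Finsupp.single i 2) (X i ^ 2 * a) = coeff m a := by
  rw [coeff_sq, if_pos, add_tsub_cancel_right]
  simp

theorem G1_of (c : D k) : G1 (X 1 ^ 2 * c) := by
  intro m hm
  rw [mem_support_iff, coeff_sq] at hm
  by_contra h
  exact hm (if_neg h)

theorem G2_of (c d : D k) : G2 (X 1 ^ 2 * c + X 2 ^ 2 * d) := by
  refine supp_add (T := fun m => 2 ≤ m 1 ∨ 2 ≤ m 2) ?_ ?_
  · exact fun m hm => Or.inl (G1_of c m hm)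
  · intro m hm
    rw [mem_support_iff, coeff_sq] at hm
    by_contra h
    push Not at h
    exact hm (if_neg (by omega))

theorem sq_mul_monomial (i : Fin 3) (m : Fin 3 →₀ ℕ) (c : k) (h : 2 ≤ m i) :
    (monomial m c : D k) = X i ^ 2 * monomial (m - Finsupp.single i 2) c := by
  rw [X_pow_eq_monomial, monomial_mul, one_mul]
  congr 1
  rw [add_tsub_cancel_of_le]
  rwa [Finsupp.single_le_iff]

theorem exists_G1 (S : ℕ → Prop) (hS : ∀ n, S (n + 2) → S n) (a : D k) (ha : IsS S a)
    (hG : G1 a) : ∃ c, IsS S c ∧ a = X 1 ^ 2 * c := by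
  classical
  have key : ∀ s : Finset (Fin 3 →₀ ℕ), s ⊆ a.support →
      ∃ c, IsS S c ∧ ∑ m ∈ s, monomial m (coeff m a) = X 1 ^ 2 * c := by
    intro s
    induction s using Finset.induction_on with
    | empty => exact fun _ => ⟨0, supp_zero (T := fun m => S (m 1 + m 2)), by simp⟩
    | insert m s hm ih =>
      intro hs
      obtain ⟨c, hc, he⟩ := ih (fun x hx => hs (Finset.mem_insert_of_mem hx))
      have hma := hs (Finset.mem_insert_self m s)
      refine ⟨monomial (m - Finsupp.single 1 2) (coeff m a) + c,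
        supp_add (T := fun m => S (m 1 + m 2)) (supp_monomial ?_ _) hc, ?_⟩
      · have h1 := hG m hma
        have h2 := ha m hma
        apply hS
        simp only [Finsupp.tsub_apply, Finsupp.single_eq_same]
        rw [Finsupp.single_eq_of_ne (by decide), Nat.sub_zero]
        have h3 : m 1 - 2 + m 2 + 2 = m 1 + m 2 := by omega
        rw [h3]
        exact h2
      · rw [Finset.sum_insert hm, he, sq_mul_monomial 1 m _ (hG m hma), mul_add]
  obtain ⟨c, hc, he⟩ := key a.support (Finset.Subset.refl _)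
  exact ⟨c, hc, by rw [← he]; exact (support_sum_monomial_coeff a).symm⟩

theorem exists_G2 (S : ℕ → Prop) (hS : ∀ n, S (n + 2) → S n) (a : D k) (ha : IsS S a)
    (hG : G2 a) : ∃ c d, IsS S c ∧ IsS S d ∧ a = X 1 ^ 2 * c + X 2 ^ 2 * d := by
  classical
  have key : ∀ s : Finset (Fin 3 →₀ ℕ), s ⊆ a.support →
      ∃ c d, IsS S c ∧ IsS S d ∧ ∑ m ∈ s, monomial m (coeff m a) = X 1 ^ 2 * c + X 2 ^ 2 * d := by
    intro s
    induction s using Finset.induction_on with
    | empty => exact fun _ => ⟨0, 0, supp_zero (T := fun m => S (m 1 + m 2)),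
        supp_zero (T := fun m => S (m 1 + m 2)), by simp⟩
    | insert m s hm ih =>
      intro hs
      obtain ⟨c, d, hc, hd, he⟩ := ih (fun x hx => hs (Finset.mem_insert_of_mem hx))
      have hma := hs (Finset.mem_insert_self m s)
      have h2 := ha m hma
      rcases hG m hma with h1 | h1
      · refine ⟨monomial (m - Finsupp.single 1 2) (coeff m a) + c, d,
          supp_add (T := fun m => S (m 1 + m 2)) (supp_monomial ?_ _) hc, hd, ?_⟩
        · apply hS
          simp only [Finsupp.tsub_apply, Finsupp.single_eq_same]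
          rw [Finsupp.single_eq_of_ne (by decide), Nat.sub_zero]
          have h3 : m 1 - 2 + m 2 + 2 = m 1 + m 2 := by omega
          rw [h3]
          exact h2
        · rw [Finset.sum_insert hm, he, sq_mul_monomial 1 m _ h1]
          ring
      · refine ⟨c, monomial (m - Finsupp.single 2 2) (coeff m a) + d, hc,
          supp_add (T := fun m => S (m 1 + m 2)) (supp_monomial ?_ _) hd, ?_⟩
        · apply hS
          simp only [Finsupp.tsub_apply, Finsupp.single_eq_same]
          rw [Finsupp.single_eq_of_ne (by decide), Nat.sub_zero]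
          have h3 : m 1 + (m 2 - 2) + 2 = m 1 + m 2 := by omega
          rw [h3]
          exact h2
        · rw [Finset.sum_insert hm, he, sq_mul_monomial 2 m _ h1]
          ring
  obtain ⟨c, d, hc, hd, he⟩ := key a.support (Finset.Subset.refl _)
  exact ⟨c, d, hc, hd, by rw [← he]; exact (support_sum_monomial_coeff a).symm⟩

theorem G1_cancel (a : D k) (h : G1 (X 2 ^ 2 * a)) : G1 a := by
  intro m hm
  have h1 := h (m + Finsupp.single 2 2) (by
    rw [mem_support_iff, coeff_sq']
    exact mem_support_iff.1 hm)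
  rw [Finsupp.add_apply, Finsupp.single_eq_of_ne (by decide)] at h1
  exact h1

theorem G2_cancel (g a : D k) (hg0 : g ≠ 0) (hg : OnlyX0 g) (h : G2 (g * a)) : G2 a := by
  classical
  let a' : D k := ∑ m ∈ a.support.filter (fun m => m 1 < 2 ∧ m 2 < 2), monomial m (coeff m a)
  have hc : ∀ m, coeff m a' = if m 1 < 2 ∧ m 2 < 2 then coeff m a else 0 := by
    intro m
    change coeff m (∑ m ∈ a.support.filter (fun m => m 1 < 2 ∧ m 2 < 2),
      monomial m (coeff m a)) = _
    rw [coeff_sum]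
    simp only [coeff_monomial]
    rw [Finset.sum_ite_eq' _ m]
    by_cases h1 : m 1 < 2 ∧ m 2 < 2
    · by_cases h2 : coeff m a = 0
      · simp [h2]
      · rw [if_pos (Finset.mem_filter.2 ⟨mem_support_iff.2 h2, h1⟩), if_pos h1]
    · have hh : m ∉ a.support.filter (fun m => m 1 < 2 ∧ m 2 < 2) :=
        fun hh => h1 (Finset.mem_filter.1 hh).2
      rw [if_neg hh, if_neg h1]
  have h0 : g * a' = 0 := by
    ext m
    rw [coeff_zero, coeff_mul]
    by_cases h1 : m 1 < 2 ∧ m 2 < 2
    · have h2 : coeff m (g * a) = 0 := by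
        by_contra h3
        rcases h m (mem_support_iff.2 h3) with h4 | h4 <;> omega
      rw [coeff_mul] at h2
      rw [← h2]
      refine Finset.sum_congr rfl fun x hx => ?_
      rw [hc]
      by_cases h3 : coeff x.1 g = 0
      · rw [h3, zero_mul, zero_mul]
      · have h4 := hg x.1 (mem_support_iff.2 h3)
        have h5 := Finset.HasAntidiagonal.mem_antidiagonal.1 hx
        have h6 := DFunLike.congr_fun h5 1
        have h7 := DFunLike.congr_fun h5 2
        rw [Finsupp.add_apply] at h6 h7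
        rw [if_pos (by omega)]
    · refine Finset.sum_eq_zero fun x hx => ?_
      rw [hc]
      by_cases h3 : coeff x.1 g = 0
      · rw [h3, zero_mul]
      · have h4 := hg x.1 (mem_support_iff.2 h3)
        have h5 := Finset.HasAntidiagonal.mem_antidiagonal.1 hx
        have h6 := DFunLike.congr_fun h5 1
        have h7 := DFunLike.congr_fun h5 2
        rw [Finsupp.add_apply] at h6 h7
        rw [if_neg (by omega), mul_zero]
  have h1 : a' = 0 := (mul_eq_zero.1 h0).resolve_left hg0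
  intro m hm
  by_contra h2
  push Not at h2
  have h3 := hc m
  rw [h1, coeff_zero, if_pos (by omega)] at h3
  exact mem_support_iff.1 hm h3.symm


/-! ### the ring `D` -/

theorem mem_span1 {A : Type} [CommRing A] (x a : A) : a ∈ Ideal.span {x} ↔ ∃ c, a = x * c := by
  rw [Ideal.mem_span_singleton]
  exact Iff.rfl

theorem mem_span2 {A : Type} [CommRing A] (x y a : A) :
    a ∈ Ideal.span {x, y} ↔ ∃ c d, a = x * c + y * d := by
  rw [Ideal.mem_span_pair]
  constructor
  · rintro ⟨c, d, h⟩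
    exact ⟨c, d, by rw [← h]; ring⟩
  · rintro ⟨c, d, h⟩
    exact ⟨c, d, by rw [h]; ring⟩

theorem IsS_true (a : D k) : IsS (fun _ => True) a := fun _ _ => trivial

theorem G1_iff (a : D k) : G1 a ↔ a ∈ Ideal.span {(X 1 ^ 2 : D k)} := by
  rw [mem_span1]
  constructor
  · intro h
    obtain ⟨c, -, hc⟩ := exists_G1 _ (fun _ h => h) a (IsS_true a) h
    exact ⟨c, hc⟩
  · rintro ⟨c, rfl⟩
    exact G1_of c

theorem G2_iff (a : D k) : G2 a ↔ a ∈ Ideal.span {(X 1 ^ 2 : D k), X 2 ^ 2} := by
  rw [mem_span2]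
  constructor
  · intro h
    obtain ⟨c, d, -, -, hc⟩ := exists_G2 _ (fun _ h => h) a (IsS_true a) h
    exact ⟨c, d, hc⟩
  · rintro ⟨c, d, rfl⟩
    exact G2_of c d

theorem onlyX0_poly (f : Polynomial k) : OnlyX0 (polyX0 f) := by
  refine Polynomial.induction_on' f ?_ ?_
  · intro p q hp hq
    have e : polyX0 (p + q) = polyX0 p + polyX0 q := map_add _ _ _
    rw [e]
    exact supp_add (T := fun m => m 1 = 0 ∧ m 2 = 0) hp hq
  · intro n c
    have e : polyX0 (Polynomial.monomial n c) = (monomial (Finsupp.single 0 n) c : D k) := by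
      rw [polyX0, Polynomial.aeval_monomial, X_pow_eq_monomial, MvPolynomial.algebraMap_eq,
        C_mul_monomial, mul_one]
    rw [e]
    refine supp_monomial (T := fun m => m 1 = 0 ∧ m 2 = 0) ?_ _
    constructor
    · exact Finsupp.single_eq_of_ne (by decide)
    · exact Finsupp.single_eq_of_ne (by decide)

theorem poly_ne (f : Polynomial k) (hf : f ≠ 0) : polyX0 f ≠ 0 := by
  intro h
  apply hf
  have h1 := congrArg (MvPolynomial.aeval (fun _ : Fin 3 => (Polynomial.X : Polynomial k))) h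
  rw [map_zero, polyX0, ← Polynomial.aeval_algHom_apply, aeval_X,
    Polynomial.aeval_X_left_apply] at h1
  exact h1

theorem ev_poly (f : Polynomial k) : IsEv (polyX0 f) := by
  intro m hm
  have h := onlyX0_poly f m hm
  rw [h.1, h.2]
  exact ⟨0, rfl⟩

theorem X_ne (i : Fin 3) : (X i : D k) ≠ 0 := X_ne_zero i

theorem regD2 : RingTheory.Sequence.IsWeaklyRegular (D k) [(X 1 ^ 2 : D k), X 2 ^ 2] := by
  apply wr2
  · intro a ha
    exact (mul_eq_zero.1 ha).resolve_left (pow_ne_zero _ (X_ne 1))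
  · intro a ha
    rw [← G1_iff] at ha ⊢
    exact G1_cancel a ha

theorem regD3 (f : Polynomial k) (hf : f ≠ 0) :
    RingTheory.Sequence.IsWeaklyRegular (D k) [(X 1 ^ 2 : D k), X 2 ^ 2, polyX0 f] := by
  apply wr3
  · intro a ha
    exact (mul_eq_zero.1 ha).resolve_left (pow_ne_zero _ (X_ne 1))
  · intro a ha
    rw [← G1_iff] at ha ⊢
    exact G1_cancel a ha
  · intro a ha
    rw [← G2_iff] at ha ⊢
    exact G2_cancel _ a (poly_ne f hf) (onlyX0_poly f) ha

/-! ### the ring `R` -/

theorem E_inj : Function.Injective (E k) := MvPolynomial.expand_injective (by norm_num)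

theorem pderiv_E [CharP k 2] (i : Fin 3) (b : D k) : pderiv i (E k b) = 0 := by
  induction b using MvPolynomial.induction_on with
  | C c => rw [MvPolynomial.expand_C, pderiv_C]
  | add p q hp hq => rw [map_add, map_add, hp, hq, add_zero]
  | mul_X p j hp =>
    have h2 : (2 : D k) = 0 := by
      have := CharP.cast_eq_zero (D k) 2
      exact_mod_cast this
    rw [map_mul, MvPolynomial.expand_X, Derivation.leibniz, hp, Derivation.leibniz_pow]
    simp [h2]

theorem uniq [CharP k 2] (a b : D k) (h : E k a + E k b * w k = 0) : a = 0 ∧ b = 0 := by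
  have h1 := congrArg (pderiv 2) h
  rw [map_add, pderiv_E, zero_add, Derivation.leibniz, pderiv_E, smul_zero, add_zero,
    smul_eq_mul, map_zero] at h1
  have hw : pderiv 2 (w k) ≠ 0 := by
    intro h0
    have h2 := congrArg (MvPolynomial.eval (![0, 1, 0] : Fin 3 → k)) h0
    simp [w, Derivation.leibniz, Derivation.leibniz_pow, pderiv_X] at h2
  have h2 : E k b = 0 := (mul_eq_zero.1 h1).resolve_right hw
  have h3 : b = 0 := E_inj (by rw [h2, map_zero])
  refine ⟨?_, h3⟩
  rw [h2, zero_mul, add_zero] at h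
  exact E_inj (by rw [h, map_zero])

theorem uniq' [CharP k 2] (a b a' b' : D k) (h : E k a + E k b * w k = E k a' + E k b' * w k) :
    a = a' ∧ b = b' := by
  have h1 := uniq (a - a') (b - b') (by rw [map_sub, map_sub]; linear_combination h)
  exact ⟨sub_eq_zero.1 h1.1, sub_eq_zero.1 h1.2⟩

theorem r1E : (r k 1 : D k) = E k (X 1 ^ 2) := by
  change gen k 1 = _
  rw [map_pow, MvPolynomial.expand_X]
  change (X 1 ^ 4 : D k) = _
  ring

theorem r3E : (r k 3 : D k) = E k (X 2 ^ 2) := by
  change gen k 3 = _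
  rw [map_pow, MvPolynomial.expand_X]
  change (X 2 ^ 4 : D k) = _
  ring

theorem even_down : ∀ n, Even (n + 2) → Even n := fun n h => by
  rw [Nat.even_add] at h
  exact h.2 ⟨1, rfl⟩

theorem odd_down : ∀ n, Odd (n + 2) → Odd n := fun n h => by
  obtain ⟨j, hj⟩ := h
  exact ⟨j - 1, by omega⟩

/-- an element of `R` whose coordinates are divisible is divisible in `R` -/
theorem div1 [CharP k 2] (hM : TaskMem) (z : R k) (a b : D k) (ha : IsEv a) (hb : IsOd b)
    (hz : (z : D k) = E k a + E k b * w k) (h1 : G1 a) (h2 : G1 b) :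
    z ∈ Ideal.span {r k 1} := by
  obtain ⟨c, hc, rfl⟩ := exists_G1 Even even_down a ha h1
  obtain ⟨d, hd, rfl⟩ := exists_G1 Odd odd_down b hb h2
  rw [mem_span1]
  refine ⟨⟨E k c + E k d * w k, (hM k _).2 ⟨c, d, hc, hd, rfl⟩⟩, ?_⟩
  apply Subtype.ext
  rw [hz, Subalgebra.coe_mul, r1E, map_mul, map_mul]
  ring

theorem div2 [CharP k 2] (hM : TaskMem) (z : R k) (a b : D k) (ha : IsEv a) (hb : IsOd b)
    (hz : (z : D k) = E k a + E k b * w k) (h1 : G2 a) (h2 : G2 b) :
    z ∈ Ideal.span {r k 1, r k 3} := by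
  obtain ⟨c, c', hc, hc', rfl⟩ := exists_G2 Even even_down a ha h1
  obtain ⟨d, d', hd, hd', rfl⟩ := exists_G2 Odd odd_down b hb h2
  rw [mem_span2]
  refine ⟨⟨E k c + E k d * w k, (hM k _).2 ⟨c, d, hc, hd, rfl⟩⟩,
    ⟨E k c' + E k d' * w k, (hM k _).2 ⟨c', d', hc', hd', rfl⟩⟩, ?_⟩
  apply Subtype.ext
  rw [hz, Subalgebra.coe_add, Subalgebra.coe_mul, Subalgebra.coe_mul, r1E, r3E, map_add, map_add,
    map_mul, map_mul, map_mul, map_mul]
  ring

theorem reg1 : ∀ a : R k, r k 1 * a = 0 → a = 0 := by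
  intro a ha
  have h1 := congrArg Subtype.val ha
  change (r k 1 : D k) * (a : D k) = 0 at h1
  apply Subtype.ext
  refine (mul_eq_zero.1 h1).resolve_left ?_
  rw [r1E]
  intro h
  exact pow_ne_zero 2 (X_ne 1) (E_inj (by rw [h, map_zero]))

theorem reg3 [CharP k 2] (hM : TaskMem) : ∀ a : R k, r k 3 * a ∈ Ideal.span {r k 1} →
    a ∈ Ideal.span {r k 1} := by
  intro z hz
  rw [mem_span1] at hz
  obtain ⟨c, hc⟩ := hz
  obtain ⟨a, b, ha, hb, hab⟩ := (hM k _).1 z.2
  obtain ⟨a', b', ha', hb', hab'⟩ := (hM k _).1 c.2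
  have h1 := congrArg Subtype.val hc
  change (r k 3 : D k) * (z : D k) = (r k 1 : D k) * (c : D k) at h1
  rw [hab, hab', r1E, r3E] at h1
  have h2 := uniq' (X 2 ^ 2 * a) (X 2 ^ 2 * b) (X 1 ^ 2 * a') (X 1 ^ 2 * b') (by
    rw [map_mul, map_mul, map_mul, map_mul]
    linear_combination h1)
  refine div1 hM z a b ha hb hab ?_ ?_
  · apply G1_cancel
    rw [h2.1]
    exact G1_of a'
  · apply G1_cancel
    rw [h2.2]
    exact G1_of b'

theorem regf [CharP k 2] (hM : TaskMem) (f : Polynomial k) (hf : f ≠ 0)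
    (h : E k (polyX0 f) ∈ H503R3.FR.R k) : ∀ a : R k, (⟨E k (polyX0 f), h⟩ : R k) * a ∈
      Ideal.span {r k 1, r k 3} → a ∈ Ideal.span {r k 1, r k 3} := by
  intro z hz
  rw [mem_span2] at hz
  obtain ⟨c, d, hc⟩ := hz
  obtain ⟨a, b, ha, hb, hab⟩ := (hM k _).1 z.2
  obtain ⟨a', b', ha', hb', hab'⟩ := (hM k _).1 c.2
  obtain ⟨a'', b'', ha'', hb'', hab''⟩ := (hM k _).1 d.2
  have h1 := congrArg Subtype.val hc
  change E k (polyX0 f) * (z : D k) = (r k 1 : D k) * (c : D k) + (r k 3 : D k) * (d : D k) at h1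
  rw [hab, hab', hab'', r1E, r3E] at h1
  have h2 := uniq' (polyX0 f * a) (polyX0 f * b) (X 1 ^ 2 * a' + X 2 ^ 2 * a'')
    (X 1 ^ 2 * b' + X 2 ^ 2 * b'') (by
    rw [map_mul, map_mul, map_add, map_add, map_mul, map_mul, map_mul, map_mul]
    linear_combination h1)
  refine div2 hM z a b ha hb hab ?_ ?_
  · apply G2_cancel _ a (poly_ne f hf) (onlyX0_poly f)
    rw [h2.1]
    exact G2_of a' a''
  · apply G2_cancel _ b (poly_ne f hf) (onlyX0_poly f)
    rw [h2.2]
    exact G2_of b' b''

theorem taskZsReg : TaskZsReg := by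
  intro hM k _ _
  refine ⟨regD2, wr2 _ _ reg1 (reg3 hM), ?_⟩
  intro f hf
  have h : E k (polyX0 f) ∈ H503R3.FR.R k := (hM k _).2 ⟨polyX0 f, 0, ev_poly f,
    supp_zero (T := fun m => Odd (m 1 + m 2)), by rw [map_zero, zero_mul, add_zero]⟩
  exact ⟨ev_poly f, regD3 f hf, h, wr3 _ _ _ reg1 (reg3 hM) (regf hM f hf h)⟩

end Pool.Agent.H66R3.FR
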